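import Pool.Agent.Q131.FlipLower

/-!
# Bounded positions of flip sequences: coloured graphs given by `0/1` matrices
-/

namespace Q131.FB

open Finset Matrix Kronecker

/-- `M` is a family of disjoint symmetric `0/1` matrices with zero diagonal (the colour classes of
an edge coloured graph on `V`), every vertex has exactly `a j` edges of colour `j`, and the number
of ordered pairs of neighbours of a vertex joined by an edge of colour `j` is `t j`. -/
structure HasType {k : ℕ} {V : Type} [Fintype V] (M : Fin k → Matrix V V ℝ) (a : Fin k → ℕ)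
    (t : Fin k → ℝ) : Prop where
  val : ∀ x y, (∀ j, M j x y = 0) ∨ ∃ j, M j x y = 1 ∧ ∀ i, i ≠ j → M i x y = 0
  symm : ∀ j x y, M j x y = M j y x
  diag : ∀ j x, M j x x = 0
  row : ∀ j x, ∑ y, M j x y = (a j : ℝ)
  tri : ∀ j x, ((∑ i, M i) * M j * (∑ i, M i)) x x = t j

/-- A flip graph from a family of matrices. -/
def S_flip : Prop := ∀ (k : ℕ) (V : Type) [Fintype V] (M : Fin k → Matrix V V ℝ) (a : Fin k → ℕ)
  (t : Fin k → ℝ), HasType M a t →
  (∀ i j : Fin k, i < j → 2 * (a j : ℝ) + t j < 2 * (a i : ℝ) + t i) →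
  ∃ G : SimpleGraph V, Flip.IsFlipGraph a G

/-- Cartesian products. -/
def S_prod : Prop := ∀ (k : ℕ) (V W : Type) [Fintype V] [Fintype W] [DecidableEq V]
  [DecidableEq W] (M : Fin k → Matrix V V ℝ) (N : Fin k → Matrix W W ℝ) (a b : Fin k → ℕ)
  (t u : Fin k → ℝ), HasType M a t → HasType N b u →
  HasType (fun j => M j ⊗ₖ (1 : Matrix W W ℝ) + (1 : Matrix V V ℝ) ⊗ₖ N j)
    (fun j => a j + b j) (fun j => t j + u j)

/-- Cubes: every degree vector without triangles. -/
def S_cube : Prop := ∀ (k : ℕ) (d : Fin k → ℕ), ∃ (V : Type) (_ : Fintype V) (_ : DecidableEq V)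
  (_ : Nonempty V) (M : Fin k → Matrix V V ℝ), HasType M d (fun _ => 0)

/-- Lexicographic products of two triangle-free types. -/
def S_lex : Prop := ∀ (k : ℕ) (V W : Type) [Fintype V] [Fintype W] [DecidableEq V]
  [DecidableEq W] (C : Fin k → Matrix V V ℝ) (D : Fin k → Matrix W W ℝ) (c g : Fin k → ℕ),
  HasType C c (fun _ => 0) → HasType D g (fun _ => 0) →
  HasType (fun j => C j ⊗ₖ (1 : Matrix W W ℝ) + (Matrix.of fun _ _ : V => (1 : ℝ)) ⊗ₖ D j)
    (fun j => c j + Fintype.card V * g j)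
    (fun j => (Fintype.card V : ℝ) * c j * (∑ i, (g i : ℝ)) +
      2 * (Fintype.card V : ℝ) * (∑ i, (c i : ℝ)) * g j)

/-- The upper bound: if `k ≤ 3 q` and the entries of index `< q` of a `k`-flip sequence are at most
`h` then the last entry is at most `(k + 3 q h) q h`. -/
def S_upper : Prop := ∀ (k q h : ℕ) (a : Fin k → ℕ), 1 ≤ q → q < k → k ≤ 3 * q →
  Flip.IsFlipSequence a → (∀ i : Fin k, i.val < q → a i ≤ h) →
  ∀ j : Fin k, q ≤ j.val → a j ≤ k * (q * h) + 3 * (q * h) ^ 2

end Q131.FB
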