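import Pool.Agent.Q131.FB.Lower

/-!
# Flip graphs from families of matrices
-/

namespace Q131.FB

open Finset Matrix Kronecker Flip

theorem flip' : S_flip' := by
  classical
  intro k V _ M a t hk hT hflip
  let G : SimpleGraph V :=
    { Adj := fun x y => ∃ j, M j x y = 1
      symm := ⟨fun x y ⟨j, h⟩ => ⟨j, by rw [hT.symm]; exact h⟩⟩
      loopless := ⟨fun x ⟨j, h⟩ => by
        rw [hT.diag] at h
        exact zero_ne_one h⟩ }
  let F : V → V → Fin k := fun x y => if h : ∃ j, M j x y = 1 then h.choose else ⟨0, hk⟩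
  have huniqF : ∀ x y j, M j x y = 1 → F x y = j := by
    intro x y j hj
    have hex : ∃ j, M j x y = 1 := ⟨j, hj⟩
    show (if h : ∃ j, M j x y = 1 then h.choose else ⟨0, hk⟩) = j
    rw [dif_pos hex]
    rcases hT.val x y with h | ⟨i, h1, h2⟩
    · rw [h] at hj
      exact absurd hj zero_ne_one
    · have hij : i = j := by
        by_contra hne
        rw [h2 j (fun e => hne e.symm)] at hj
        exact zero_ne_one hj
      have hic : i = hex.choose := by
        by_contra hne
        have := hex.choose_spec
        rw [h2 _ (fun e => hne e.symm)] at this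
        exact zero_ne_one this
      rw [← hic, hij]
  have hFs : ∀ x y, F x y = F y x := by
    intro x y
    by_cases hex : ∃ j, M j x y = 1
    · obtain ⟨j, hj⟩ := hex
      rw [huniqF x y j hj, huniqF y x j (by rw [hT.symm]; exact hj)]
    · have hex' : ¬ ∃ j, M j y x = 1 := by
        rintro ⟨j, hj⟩
        exact hex ⟨j, by rw [hT.symm]; exact hj⟩
      show (if h : ∃ j, M j x y = 1 then h.choose else ⟨0, hk⟩) =
        (if h : ∃ j, M j y x = 1 then h.choose else ⟨0, hk⟩)
      rw [dif_neg hex, dif_neg hex']
  let f : Sym2 V → Fin k := Sym2.lift ⟨F, hFs⟩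
  have huniq : ∀ x y j, M j x y = 1 → f s(x, y) = j := huniqF
  have hind : ∀ j x y, ind G f j x y = M j x y := by
    intro j x y
    unfold ind
    by_cases h : G.Adj x y ∧ f s(x, y) = j
    · rw [if_pos h]
      obtain ⟨⟨i, hi⟩, h2⟩ := h
      rw [huniq x y i hi] at h2
      rw [← h2, hi]
    · rw [if_neg h]
      rcases hT.val x y with h1 | ⟨i, h1, h2⟩
      · exact (h1 j).symm
      · have hne : j ≠ i := by
          rintro rfl
          exact h ⟨⟨j, h1⟩, huniq x y j h1⟩
        exact (h2 j hne).symm
  have hadj : ∀ x y, adjI G x y = (∑ i, M i) x y := by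
    intro x y
    rw [← sum_ind G f x y, Matrix.sum_apply]
    exact sum_congr rfl (fun j _ => hind j x y)
  have hdeg : ∀ j v, colDeg G f v j = a j := by
    intro j v
    have h1 := sum_ind_row G f j v
    have h2 : ((colDeg G f v j : ℕ) : ℝ) = (a j : ℕ) := by
      rw [← h1, ← hT.row j v]
      exact sum_congr rfl (fun y _ => hind j v y)
    exact_mod_cast h2
  have hcc : ∀ v j, (2 : ℝ) * closedCount G f v j = 2 * a j + t j := by
    intro v j
    rw [two_closedCount, hdeg, ← hT.tri j v, Matrix.mul_apply]
    congr 1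
    rw [sum_comm]
    apply sum_congr rfl
    intro y _
    rw [Matrix.mul_apply, sum_mul]
    apply sum_congr rfl
    intro x _
    rw [hadj, hadj, hind]
  refine ⟨G, f, hdeg, fun v i j hij => ?_⟩
  have h := hflip i j hij
  rw [← hcc v j, ← hcc v i] at h
  have : (closedCount G f v j : ℝ) < closedCount G f v i := by linarith
  exact_mod_cast this

end Q131.FB
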