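import Pool.Agent.Q131.FB.Defs

/-!
# Bounded positions: the upper bound
-/

namespace Q131.FB

open Finset Classical Flip

theorem upper : S_upper := by
  intro k q h a hq hqk hk3 hseq hah j0 hj0
  obtain ⟨hmono, hpos, V, hfin, hne, G, f, hdeg, hflip⟩ := hseq
  have : Fintype V := Fintype.ofFinite V
  let S : Finset (Fin k) := univ.filter (fun i => i.val < q)
  let L : Finset (Fin k) := univ.filter (fun i => ¬ i.val < q)
  let P : V → V → ℝ := fun x y => ∑ i ∈ S, ind G f i x y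
  let Q : V → V → ℝ := fun x y => ∑ i ∈ L, ind G f i x y
  have hA : ∀ x y, adjI G x y = P x y + Q x y := by
    intro x y
    rw [← sum_ind G f x y]
    exact (sum_filter_add_sum_filter_not univ _ _).symm
  have hA1 : ∀ x y, adjI G x y ≤ 1 := by
    intro x y
    unfold adjI
    split_ifs <;> norm_num
  have hind0 : ∀ i x y, 0 ≤ ind G f i x y := by
    intro i x y
    unfold ind
    split_ifs <;> norm_num
  have hP0 : ∀ x y, 0 ≤ P x y := fun x y => sum_nonneg (fun i _ => hind0 i x y)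
  have hQ0 : ∀ x y, 0 ≤ Q x y := fun x y => sum_nonneg (fun i _ => hind0 i x y)
  obtain ⟨s, hs⟩ : ∃ s : ℝ, s = ∑ i ∈ S, (a i : ℝ) := ⟨_, rfl⟩
  obtain ⟨l, hl⟩ : ∃ l : ℝ, l = ∑ i ∈ L, (a i : ℝ) := ⟨_, rfl⟩
  have hrow : ∀ x, ∑ y, P x y = s := by
    intro x
    show ∑ y, ∑ i ∈ S, ind G f i x y = _
    rw [sum_comm, hs]
    apply sum_congr rfl
    intro i _
    rw [sum_ind_row, hdeg]
  have hcS : (S.card : ℝ) ≤ q := by
    have h2 : (S.image (fun i => i.val)).card ≤ (range q).card := by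
      apply card_le_card
      intro x hx
      rw [mem_image] at hx
      obtain ⟨i, hi, rfl⟩ := hx
      rw [mem_filter] at hi
      exact mem_range.2 hi.2
    rw [card_range, card_image_of_injective _ Fin.val_injective] at h2
    exact_mod_cast h2
  have hcS' : (q : ℝ) ≤ S.card := by
    have h4 : (range q).card ≤ (S.image (fun i => i.val)).card := by
      apply card_le_card
      intro x hx
      rw [mem_range] at hx
      rw [mem_image]
      exact ⟨⟨x, by omega⟩, mem_filter.2 ⟨mem_univ _, hx⟩, rfl⟩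
    rw [card_range, card_image_of_injective _ Fin.val_injective] at h4
    exact_mod_cast h4
  have hcSL : S.card + L.card = k := by
    have := card_filter_add_card_filter_not (s := (univ : Finset (Fin k)))
      (fun i : Fin k => i.val < q)
    rw [card_univ, Fintype.card_fin] at this
    exact this
  have hcL : (L.card : ℝ) = k - S.card := by
    have : ((S.card + L.card : ℕ) : ℝ) = k := by rw [hcSL]
    push_cast at this
    linarith
  have hSq : (S.card : ℝ) = q := le_antisymm hcS hcS'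
  have hs1 : s ≤ q * h := by
    rw [hs, ← hSq, ← nsmul_eq_mul]
    apply sum_le_card_nsmul
    intro i hi
    have := hah i (mem_filter.1 hi).2
    exact_mod_cast this
  have hs0 : 0 ≤ s := by
    rw [hs]
    exact sum_nonneg (fun i _ => Nat.cast_nonneg _)
  have hl1 : (a j0 : ℝ) ≤ l := by
    rw [hl]
    exact single_le_sum (f := fun i => (a i : ℝ)) (fun i _ => Nat.cast_nonneg _)
      (mem_filter.2 ⟨mem_univ _, by omega⟩)
  -- local inequality
  have hloc : ∀ v, (q : ℝ) * (2 * l + ∑ x, ∑ y, adjI G v x * Q x y * adjI G y v) ≤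
      (k - q : ℝ) * (2 * s + ∑ x, ∑ y, adjI G v x * P x y * adjI G y v) := by
    intro v
    have expand : ∀ T : Finset (Fin k), ∑ i ∈ T, (2 : ℝ) * closedCount G f v i =
        2 * ∑ i ∈ T, (a i : ℝ) + ∑ x, ∑ y, adjI G v x * (∑ i ∈ T, ind G f i x y) *
          adjI G y v := by
      intro T
      have e : ∀ i, (2 : ℝ) * closedCount G f v i = 2 * a i +
          ∑ x, ∑ y, adjI G v x * ind G f i x y * adjI G y v := by
        intro i
        rw [two_closedCount, hdeg]
      simp only [e, sum_add_distrib]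
      rw [mul_sum]
      congr 1
      rw [sum_comm]
      apply sum_congr rfl
      intro x _
      rw [sum_comm]
      apply sum_congr rfl
      intro y _
      rw [mul_sum, sum_mul]
    have e1 := expand S
    have e2 := expand L
    have hpair : ∑ i ∈ S, ∑ j ∈ L, ((2 : ℝ) * closedCount G f v j) ≤
        ∑ i ∈ S, ∑ j ∈ L, ((2 : ℝ) * closedCount G f v i) := by
      apply sum_le_sum
      intro i hi
      apply sum_le_sum
      intro j hj
      have hi' := (mem_filter.1 hi).2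
      have hj' := (mem_filter.1 hj).2
      have hij : i < j := by
        show i.val < j.val
        omega
      have h1 := hflip v i j hij
      have h2 : (closedCount G f v j : ℝ) ≤ closedCount G f v i := by exact_mod_cast h1.le
      linarith
    rw [sum_const, nsmul_eq_mul] at hpair
    have e3 : ∑ i ∈ S, ∑ _j ∈ L, ((2 : ℝ) * closedCount G f v i) =
        (L.card : ℝ) * ∑ i ∈ S, ((2 : ℝ) * closedCount G f v i) := by
      rw [mul_sum]
      apply sum_congr rfl
      intro i _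
      rw [sum_const, nsmul_eq_mul]
    rw [e3, e1, e2, hcL, hSq, ← hs, ← hl] at hpair
    exact hpair
  have hsum := sum_le_sum (fun v (_ : v ∈ (univ : Finset V)) => hloc v)
  simp only [← mul_sum, sum_add_distrib, sum_const, card_univ, nsmul_eq_mul] at hsum
  have T : ∀ M : V → V → ℝ, ∑ v, ∑ x, ∑ y, adjI G v x * M x y * adjI G y v =
      ∑ v, ∑ x, ∑ y, P v x * M x y * P y v + ∑ v, ∑ x, ∑ y, P v x * M x y * Q y v +
      ∑ v, ∑ x, ∑ y, Q v x * M x y * P y v + ∑ v, ∑ x, ∑ y, Q v x * M x y * Q y v := by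
    intro M
    simp only [← sum_add_distrib]
    apply sum_congr rfl
    intro v _
    apply sum_congr rfl
    intro x _
    apply sum_congr rfl
    intro y _
    rw [hA, hA]
    ring
  rw [T P, T Q] at hsum
  have r1 := rot P P Q
  have r2 := rot Q P P
  have r3 := rot Q P Q
  have r4 := rot P Q Q
  have hn : (0 : ℝ) < Fintype.card V := by exact_mod_cast Fintype.card_pos
  -- few triangles with two small edges
  have hfew : ∑ v, ∑ x, ∑ y, P v x * P x y * P y v + ∑ v, ∑ x, ∑ y, P v x * P x y * Q y v ≤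
      (Fintype.card V : ℝ) * s ^ 2 := by
    rw [← sum_add_distrib]
    have e : ∀ v, ∑ x, ∑ y, P v x * P x y * P y v + ∑ x, ∑ y, P v x * P x y * Q y v ≤ s ^ 2 := by
      intro v
      rw [← sum_add_distrib]
      have e1 : ∀ x, ∑ y, P v x * P x y * P y v + ∑ y, P v x * P x y * Q y v ≤ P v x * s := by
        intro x
        rw [← sum_add_distrib, ← hrow x, mul_sum]
        apply sum_le_sum
        intro y _
        have h1 : P v x * P x y * P y v + P v x * P x y * Q y v =
            (P v x * P x y) * adjI G y v := by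
          rw [hA]
          ring
        rw [h1]
        calc (P v x * P x y) * adjI G y v ≤ (P v x * P x y) * 1 :=
              mul_le_mul_of_nonneg_left (hA1 y v) (mul_nonneg (hP0 v x) (hP0 x y))
          _ = P v x * P x y := mul_one _
      calc _ ≤ ∑ x, P v x * s := sum_le_sum (fun x _ => e1 x)
        _ = s ^ 2 := by rw [← sum_mul, hrow]; ring
    calc _ ≤ ∑ _v : V, s ^ 2 := sum_le_sum (fun v _ => e v)
      _ = _ := by rw [sum_const, card_univ, nsmul_eq_mul]
  have n0 : 0 ≤ ∑ v, ∑ x, ∑ y, Q v x * Q x y * Q y v := sum_nonneg (fun v _ =>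
    sum_nonneg (fun x _ => sum_nonneg (fun y _ => mul_nonneg (mul_nonneg (hQ0 v x) (hQ0 x y))
      (hQ0 y v))))
  have n1 : 0 ≤ ∑ v, ∑ x, ∑ y, P v x * Q x y * Q y v := sum_nonneg (fun v _ =>
    sum_nonneg (fun x _ => sum_nonneg (fun y _ => mul_nonneg (mul_nonneg (hP0 v x) (hQ0 x y))
      (hQ0 y v))))
  have n2 : 0 ≤ ∑ v, ∑ x, ∑ y, P v x * P x y * Q y v := sum_nonneg (fun v _ =>
    sum_nonneg (fun x _ => sum_nonneg (fun y _ => mul_nonneg (mul_nonneg (hP0 v x) (hP0 x y))
      (hQ0 y v))))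
  have n3 : 0 ≤ ∑ v, ∑ x, ∑ y, P v x * P x y * P y v := sum_nonneg (fun v _ =>
    sum_nonneg (fun x _ => sum_nonneg (fun y _ => mul_nonneg (mul_nonneg (hP0 v x) (hP0 x y))
      (hP0 y v))))
  obtain ⟨T0, hT0⟩ : ∃ t, t = ∑ v, ∑ x, ∑ y, Q v x * Q x y * Q y v := ⟨_, rfl⟩
  obtain ⟨T1, hT1⟩ : ∃ t, t = ∑ v, ∑ x, ∑ y, P v x * Q x y * Q y v := ⟨_, rfl⟩
  obtain ⟨T2, hT2⟩ : ∃ t, t = ∑ v, ∑ x, ∑ y, P v x * P x y * Q y v := ⟨_, rfl⟩
  obtain ⟨T3, hT3⟩ : ∃ t, t = ∑ v, ∑ x, ∑ y, P v x * P x y * P y v := ⟨_, rfl⟩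
  have m1 : ∑ v, ∑ x, ∑ y, Q v x * P x y * Q y v = T1 := by rw [r3, hT1]
  have m2 : ∑ v, ∑ x, ∑ y, Q v x * Q x y * P y v = T1 := by rw [← r4, hT1]
  have m3 : ∑ v, ∑ x, ∑ y, P v x * Q x y * P y v = T2 := by rw [hT2, r1]
  have m4 : ∑ v, ∑ x, ∑ y, Q v x * P x y * P y v = T2 := by rw [r2, hT2]
  rw [m1, m2, m3, m4, ← hT0, ← hT1, ← hT2, ← hT3] at hsum
  rw [← hT2, ← hT3] at hfew
  rw [← hT0] at n0
  rw [← hT1] at n1
  rw [← hT2] at n2
  rw [← hT3] at n3
  obtain ⟨n, hnn⟩ : ∃ n : ℝ, n = Fintype.card V := ⟨_, rfl⟩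
  rw [← hnn] at hsum hn hfew
  have hkq : (k : ℝ) - q ≤ 2 * q := by
    have : (k : ℝ) ≤ 3 * q := by exact_mod_cast hk3
    linarith
  have hkq0 : (0 : ℝ) ≤ (k : ℝ) - q := by
    have : (q : ℝ) ≤ k := by exact_mod_cast hqk.le
    linarith
  have hq1 : (1 : ℝ) ≤ q := by exact_mod_cast hq
  have hk0 : (0 : ℝ) ≤ k := Nat.cast_nonneg _
  have b1 : ((k : ℝ) - q) * (T3 + 2 * T2 + T1) ≤ 2 * q * (T3 + 2 * T2 + T1) :=
    mul_le_mul_of_nonneg_right hkq (by linarith)
  have b2 : (q : ℝ) * T0 ≥ 0 := mul_nonneg (by linarith) n0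
  have b3 : 3 * (q : ℝ) * (T3 + T2) ≤ 3 * q * (n * s ^ 2) :=
    mul_le_mul_of_nonneg_left hfew (by linarith)
  have b4 : (0 : ℝ) ≤ q * T3 := mul_nonneg (by linarith) n3
  have b5 : n * (2 * q * l) ≤ n * (2 * (k - q) * s + 3 * q * s ^ 2) := by linarith
  have b6 := le_of_mul_le_mul_left b5 hn
  have b7 : (q : ℝ) * l ≤ q * (k * s + 3 * s ^ 2) := by
    have c1 : ((k : ℝ) - q) * s ≤ k * s := mul_le_mul_of_nonneg_right (by linarith) hs0
    have c2 : k * s ≤ q * (k * s) := by nlinarith [mul_nonneg hk0 hs0]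
    have c3 : 0 ≤ (q : ℝ) * s ^ 2 := by positivity
    linarith
  have b8 := le_of_mul_le_mul_left b7 (by linarith)
  have b9 : (a j0 : ℝ) ≤ k * (q * h) + 3 * (q * h) ^ 2 := by
    have c1 : (k : ℝ) * s ≤ k * (q * h) := mul_le_mul_of_nonneg_left hs1 hk0
    have c2 : s ^ 2 ≤ (q * h : ℝ) ^ 2 := pow_le_pow_left₀ hs0 hs1 2
    linarith
  exact_mod_cast b9

end Q131.FB
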