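import Pool.Agent.Q131.FB.Defs

/-!
# Bounded positions: the construction
-/

namespace Q131.FB

open Finset Matrix Kronecker

/-- The flip statement for at least one colour. -/
def S_flip' : Prop := ∀ (k : ℕ) (V : Type) [Fintype V] (M : Fin k → Matrix V V ℝ) (a : Fin k → ℕ)
  (t : Fin k → ℝ), 0 < k → HasType M a t →
  (∀ i j : Fin k, i < j → 2 * (a j : ℝ) + t j < 2 * (a i : ℝ) + t i) →
  ∃ G : SimpleGraph V, Flip.IsFlipGraph a G

theorem lower_seq (hf : S_flip') (hp : S_prod) (hc : S_cube) (hl : S_lex) (k q : ℕ) (hq : 1 ≤ q)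
    (hk : 3 * q < k) : ∃ h : ℕ, 0 < h ∧ ∀ N : ℕ, ∃ a : Fin k → ℕ, Flip.IsFlipSequence a ∧
      (∀ i : Fin k, i.val + 1 = q → a i = h) ∧ (∀ i : Fin k, i.val + 1 = k → N < a i) := by
  obtain ⟨c0, hc0⟩ : ∃ c0, c0 = 2 * q * (q - 1) + 3 := ⟨_, rfl⟩
  let c : Fin k → ℕ := fun j => if j.val < q then c0 + (q - 1 - j.val) else 0
  obtain ⟨V, iV, dV, nV, C, hC⟩ := hc k c
  obtain ⟨R, hR⟩ : ∃ R, R = Fintype.card V := ⟨_, rfl⟩
  have hR1 : 1 ≤ R := by rw [hR]; exact Fintype.card_pos
  obtain ⟨M, hM⟩ : ∃ M, M = ∑ i, c i := ⟨_, rfl⟩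
  have hM1 : c0 ≤ M := by
    rw [hM]
    have h1 : c ⟨0, by omega⟩ ≤ ∑ i, c i := single_le_sum (fun i _ => Nat.zero_le _) (mem_univ _)
    refine le_trans ?_ h1
    show c0 ≤ if 0 < q then c0 + (q - 1 - 0) else 0
    rw [if_pos (by omega)]
    omega
  have hM2 : M ≤ q * (c0 + (q - 1)) := by
    rw [hM]
    show ∑ i : Fin k, (if i.val < q then c0 + (q - 1 - i.val) else 0) ≤ _
    rw [← sum_filter]
    calc ∑ i ∈ univ.filter (fun i : Fin k => i.val < q), (c0 + (q - 1 - i.val))
        ≤ ∑ i ∈ univ.filter (fun i : Fin k => i.val < q), (c0 + (q - 1)) :=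
          sum_le_sum (fun i _ => by omega)
      _ = (univ.filter (fun i : Fin k => i.val < q)).card * (c0 + (q - 1)) := by
          rw [sum_const, smul_eq_mul]
      _ ≤ q * (c0 + (q - 1)) := by
          apply Nat.mul_le_mul_right
          have h2 : ((univ.filter (fun i : Fin k => i.val < q)).image (fun i => i.val)).card ≤
              (range q).card := by
            apply card_le_card
            intro x hx
            rw [mem_image] at hx
            obtain ⟨i, hi, rfl⟩ := hx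
            rw [mem_filter] at hi
            exact mem_range.2 hi.2
          rw [card_range, card_image_of_injective _ Fin.val_injective] at h2
          exact h2
  refine ⟨c0 + 2 * (q - 1), by omega, fun N => ?_⟩
  obtain ⟨X, hX⟩ : ∃ X, X = 2 * (2 + M) * k + 1 + N := ⟨_, rfl⟩
  let g : Fin k → ℕ := fun j => if j.val < q then 0 else X + (k - 1 - j.val)
  let d : Fin k → ℕ := fun j => if j.val < q then 2 * j.val else (R + 1) * (j.val - q)
  obtain ⟨W, iW, dW, nW, D, hD⟩ := hc k g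
  obtain ⟨U, iU, dU, nU, E, hE⟩ := hc k d
  obtain ⟨G, hG⟩ : ∃ G, G = ∑ i, g i := ⟨_, rfl⟩
  have hG1 : (k - q) * X ≤ G := by
    rw [hG]
    show _ ≤ ∑ i : Fin k, (if i.val < q then 0 else X + (k - 1 - i.val))
    have e : ∀ i : Fin k, (if i.val < q then 0 else X) ≤
        (if i.val < q then 0 else X + (k - 1 - i.val)) := by
      intro i
      split_ifs <;> omega
    refine le_trans ?_ (sum_le_sum (fun i _ => e i))
    have h3 : ∑ i : Fin k, (if i.val < q then 0 else X) =
        ∑ i ∈ univ.filter (fun i : Fin k => ¬ i.val < q), X := by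
      rw [sum_filter]
      apply sum_congr rfl
      intro i _
      split_ifs <;> rfl
    rw [h3, sum_const, smul_eq_mul]
    apply Nat.mul_le_mul_right
    have h4 : (Ico q k).card ≤
        ((univ.filter (fun i : Fin k => ¬ i.val < q)).image (fun i => i.val)).card := by
      apply card_le_card
      intro x hx
      rw [mem_Ico] at hx
      rw [mem_image]
      exact ⟨⟨x, hx.2⟩, mem_filter.2 ⟨mem_univ _, by simpa using hx.1⟩, rfl⟩
    rw [Nat.card_Ico, card_image_of_injective _ Fin.val_injective] at h4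
    exact h4
  have hT := hp k (V × W) U _ E _ d _ _ (hl k V W C D c g hC hD) hE
  rw [← hR] at hT
  have eM : (∑ i, (c i : ℝ)) = M := by rw [hM]; push_cast; rfl
  have eG : (∑ i, (g i : ℝ)) = G := by rw [hG]; push_cast; rfl
  rw [eM, eG] at hT
  have hX1 : 2 * (2 + M) * k + 1 ≤ X := by omega
  have hXr : 2 * (2 + (M : ℝ)) * k + 1 ≤ X := by exact_mod_cast hX1
  have hRr : (1 : ℝ) ≤ R := by exact_mod_cast hR1
  have hkr : (2 * q + 1 : ℝ) ≤ ((k - q : ℕ) : ℝ) := by
    have : 2 * q + 1 ≤ k - q := by omega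
    exact_mod_cast this
  have hGr : ((k - q : ℕ) : ℝ) * X ≤ G := by exact_mod_cast hG1
  have hM2r : (M : ℝ) ≤ q * (c0 + ((q - 1 : ℕ) : ℝ)) := by exact_mod_cast hM2
  have hc0r : (c0 : ℝ) = 2 * q * ((q - 1 : ℕ) : ℝ) + 3 := by rw [hc0]; push_cast; ring
  have hM1r : (c0 : ℝ) ≤ M := by exact_mod_cast hM1
  have hq1r : (0 : ℝ) ≤ ((q - 1 : ℕ) : ℝ) := Nat.cast_nonneg _
  have hqr : (1 : ℝ) ≤ q := by exact_mod_cast hq
  have hk0r : (1 : ℝ) ≤ k := by
    have : 1 ≤ k := by omega
    exact_mod_cast this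
  have hc3 : (3 : ℝ) ≤ c0 := by
    rw [hc0r]
    nlinarith [mul_nonneg (by linarith : (0 : ℝ) ≤ q) hq1r]
  have hM0 : (0 : ℝ) ≤ M := by linarith
  have hX0 : (0 : ℝ) ≤ X := Nat.cast_nonneg _
  have hX1r : (1 : ℝ) ≤ X := by nlinarith [mul_nonneg hM0 (by linarith : (0 : ℝ) ≤ k)]
  have hG3 : (3 : ℝ) ≤ G := by nlinarith
  obtain ⟨a, ha⟩ : ∃ a : Fin k → ℕ, a = fun j => c j + R * g j + d j := ⟨_, rfl⟩
  have ha1 : ∀ j : Fin k, j.val < q → a j = c0 + (q - 1) + j.val := by
    intro j hj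
    rw [ha]
    show (if j.val < q then c0 + (q - 1 - j.val) else 0) +
      R * (if j.val < q then 0 else X + (k - 1 - j.val)) +
      (if j.val < q then 2 * j.val else (R + 1) * (j.val - q)) = _
    rw [if_pos hj, if_pos hj, if_pos hj]
    omega
  have ha2 : ∀ j : Fin k, ¬ j.val < q → a j = R * (X + (k - 1 - q)) + (j.val - q) := by
    intro j hj
    rw [ha]
    show (if j.val < q then c0 + (q - 1 - j.val) else 0) +
      R * (if j.val < q then 0 else X + (k - 1 - j.val)) +
      (if j.val < q then 2 * j.val else (R + 1) * (j.val - q)) = _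
    rw [if_neg hj, if_neg hj, if_neg hj]
    obtain ⟨s, hs⟩ : ∃ s, j.val = q + s := ⟨j.val - q, by omega⟩
    obtain ⟨r, hr⟩ : ∃ r, k - 1 - q = r + s := ⟨k - 1 - q - s, by have := j.isLt; omega⟩
    have e1 : k - 1 - j.val = r := by omega
    have e2 : j.val - q = s := by omega
    rw [e1, e2, hr]
    ring
  have hbig : ∀ n, n < k → c0 + (q - 1) + n < R * (X + (k - 1 - q)) := by
    intro n hn
    have h1 : X ≤ R * (X + (k - 1 - q)) := by
      calc X = 1 * X := (one_mul _).symm
        _ ≤ R * (X + (k - 1 - q)) := Nat.mul_le_mul hR1 (by omega)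
    have h2 : c0 + 2 * k ≤ 2 * (2 + M) * k := by
      have h3 : c0 * 1 ≤ M * k := Nat.mul_le_mul hM1 (by omega)
      nlinarith
    omega
  refine ⟨a, ⟨?_, ?_, (V × W) × U, inferInstance, inferInstance, ?_⟩, ?_, ?_⟩
  · intro i j hij
    have hij' : i.val < j.val := hij
    by_cases hj : j.val < q
    · rw [ha1 i (by omega), ha1 j hj]
      omega
    · by_cases hi : i.val < q
      · rw [ha1 i hi, ha2 j hj]
        have := hbig i.val i.isLt
        omega
      · rw [ha2 i hi, ha2 j hj]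
        omega
  · intro j
    by_cases hj : j.val < q
    · rw [ha1 j hj]
      omega
    · rw [ha2 j hj]
      have := hbig 0 (by omega)
      omega
  · apply hf k ((V × W) × U) _ a _ (by omega) (by rw [ha]; exact hT)
    intro i j hij
    have hij' : i.val < j.val := hij
    have tv : ∀ j : Fin k, (R : ℝ) * (c j : ℝ) * G + 2 * (R : ℝ) * M * (g j : ℝ) + 0 =
        if j.val < q then (R : ℝ) * ((c0 + (q - 1 - j.val) : ℕ) : ℝ) * G else
          2 * (R : ℝ) * M * ((X + (k - 1 - j.val) : ℕ) : ℝ) := by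
      intro j
      show (R : ℝ) * ((if j.val < q then c0 + (q - 1 - j.val) else 0 : ℕ) : ℝ) * G +
        2 * (R : ℝ) * M * ((if j.val < q then 0 else X + (k - 1 - j.val) : ℕ) : ℝ) + 0 = _
      split_ifs <;> simp
    show 2 * (a j : ℝ) + ((R : ℝ) * (c j : ℝ) * G + 2 * (R : ℝ) * M * (g j : ℝ) + 0) <
      2 * (a i : ℝ) + ((R : ℝ) * (c i : ℝ) * G + 2 * (R : ℝ) * M * (g i : ℝ) + 0)
    rw [tv i, tv j]
    by_cases hj : j.val < q
    · have hi : i.val < q := by omega
      rw [if_pos hi, if_pos hj, ha1 i hi, ha1 j hj]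
      obtain ⟨s, hs⟩ : ∃ s, j.val = i.val + 1 + s := ⟨j.val - i.val - 1, by omega⟩
      obtain ⟨r, hr⟩ : ∃ r, q - 1 = j.val + r := ⟨q - 1 - j.val, by omega⟩
      have e1 : q - 1 - j.val = r := by omega
      have e2 : q - 1 - i.val = r + 1 + s := by omega
      rw [e1, e2, hs]
      push_cast
      have : (0 : ℝ) ≤ s := Nat.cast_nonneg _
      have hRG : (3 : ℝ) ≤ R * G := by nlinarith
      nlinarith [mul_nonneg this (by linarith : (0 : ℝ) ≤ R * G - 3)]
    · by_cases hi : i.val < q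
      · rw [if_pos hi, if_neg hj, ha1 i hi, ha2 j hj]
        have h1 : ((j.val - q : ℕ) : ℝ) ≤ k := by
          have : j.val - q ≤ k := by have := j.isLt; omega
          exact_mod_cast this
        have h2 : (((X + (k - 1 - j.val) : ℕ)) : ℝ) ≤ X + k := by
          have : X + (k - 1 - j.val) ≤ X + k := by omega
          exact_mod_cast this
        have h3 : ((k - 1 - q : ℕ) : ℝ) ≤ k := by
          have : k - 1 - q ≤ k := by omega
          exact_mod_cast this
        have h4 : (0 : ℝ) ≤ ((q - 1 - i.val : ℕ) : ℝ) := Nat.cast_nonneg _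
        have h5 : (0 : ℝ) ≤ (i.val : ℝ) := Nat.cast_nonneg _
        have hR0 : (0 : ℝ) ≤ R := by linarith
        have hG0 : (0 : ℝ) ≤ G := by linarith
        have h6 : (R : ℝ) * c0 * (((k - q : ℕ) : ℝ) * X) ≤
            (R : ℝ) * ((c0 + (q - 1 - i.val) : ℕ) : ℝ) * G := by
          push_cast
          calc (R : ℝ) * c0 * (((k - q : ℕ) : ℝ) * X) ≤ (R : ℝ) * c0 * G :=
                mul_le_mul_of_nonneg_left hGr (by positivity)
            _ ≤ (R : ℝ) * (c0 + ((q - 1 - i.val : ℕ) : ℝ)) * G := by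
                apply mul_le_mul_of_nonneg_right _ hG0
                apply mul_le_mul_of_nonneg_left _ hR0
                linarith
        have h7 : 2 * (R : ℝ) * M * (((X + (k - 1 - j.val) : ℕ)) : ℝ) ≤
            2 * (R : ℝ) * M * (X + k) := mul_le_mul_of_nonneg_left h2 (by positivity)
        have h8 : ((R * (X + (k - 1 - q)) + (j.val - q) : ℕ) : ℝ) ≤ R * (X + k) + k := by
          push_cast
          have := mul_le_mul_of_nonneg_left (by linarith : (X : ℝ) + ((k - 1 - q : ℕ) : ℝ) ≤ X + k)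
            hR0
          linarith
        have h9 : (0 : ℝ) ≤ ((c0 + (q - 1) + i.val : ℕ) : ℝ) := Nat.cast_nonneg _
        have h10 : (2 * q + 1 : ℝ) * X ≤ ((k - q : ℕ) : ℝ) * X :=
          mul_le_mul_of_nonneg_right hkr hX0
        have h11 : (R : ℝ) * c0 * ((2 * q + 1 : ℝ) * X) ≤
            (R : ℝ) * c0 * (((k - q : ℕ) : ℝ) * X) :=
          mul_le_mul_of_nonneg_left h10 (by positivity)
        -- `c0 (2q+1) ≥ 2 (1 + M) + 1`
        have h12 : 2 * (1 + (M : ℝ)) + 1 ≤ c0 * (2 * q + 1) := by nlinarith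
        have h13 : (R : ℝ) * X * (2 * (1 + (M : ℝ)) + 1) ≤ (R : ℝ) * X * (c0 * (2 * q + 1)) :=
          mul_le_mul_of_nonneg_left h12 (by positivity)
        have h14 : 2 * (2 + (M : ℝ)) * k + 1 ≤ X := hXr
        have h15 : (R : ℝ) * (2 * (2 + (M : ℝ)) * k + 1) ≤ R * X :=
          mul_le_mul_of_nonneg_left h14 hR0
        have h16 : (k : ℝ) ≤ R * k := by nlinarith
        nlinarith
      · rw [if_neg hi, if_neg hj, ha2 i hi, ha2 j hj]
        obtain ⟨s, hs⟩ : ∃ s, j.val = i.val + 1 + s := ⟨j.val - i.val - 1, by omega⟩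
        obtain ⟨r, hr⟩ : ∃ r, k - 1 = j.val + r := ⟨k - 1 - j.val, by have := j.isLt; omega⟩
        obtain ⟨u, hu⟩ : ∃ u, i.val = q + u := ⟨i.val - q, by omega⟩
        have e1 : k - 1 - j.val = r := by omega
        have e2 : k - 1 - i.val = r + 1 + s := by omega
        have e3 : j.val - q = u + 1 + s := by omega
        have e4 : i.val - q = u := by omega
        rw [e1, e2, e3, e4]
        push_cast
        have h1 : (0 : ℝ) ≤ s := Nat.cast_nonneg _
        have hRM : (3 : ℝ) ≤ R * M := by nlinarith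
        nlinarith [mul_nonneg h1 (by linarith : (0 : ℝ) ≤ R * M - 3)]
  · intro i hi
    rw [ha1 i (by omega)]
    omega
  · intro i hi
    rw [ha2 i (by omega)]
    have h1 : X ≤ R * (X + (k - 1 - q)) := by
      calc X = 1 * X := (one_mul _).symm
        _ ≤ R * (X + (k - 1 - q)) := Nat.mul_le_mul hR1 (by omega)
    omega

end Q131.FB
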