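import Pool.Agent.Q131.FB.Lower

/-!
# Bounded positions: the main theorem from its parts
-/

namespace Q131.FB

open Finset Matrix Kronecker

/-- Position `q` (counted from 1) is bounded for `k` colours: there is a positive `h` such that for
every `N` some `k`-flip sequence `a_1 < ... < a_k` has `a_q = h` and `a_k > N`. -/
def IsBoundedPosition (k q : ℕ) : Prop :=
  1 ≤ q ∧ q ≤ k - 1 ∧ ∃ h : ℕ, 0 < h ∧ ∀ N : ℕ, ∃ a : Fin k → ℕ, Flip.IsFlipSequence a ∧
    (∀ i : Fin k, i.val + 1 = q → a i = h) ∧ (∀ i : Fin k, i.val + 1 = k → N < a i)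

theorem main (hf : S_flip') (hp : S_prod) (hc : S_cube) (hl : S_lex) (hu : S_upper) (k : ℕ)
    (hk : 4 ≤ k) : IsGreatest {q : ℕ | IsBoundedPosition k q} ((k - 1) / 3) := by
  constructor
  · obtain ⟨h, h0, h1⟩ := lower_seq hf hp hc hl k ((k - 1) / 3) (by omega) (by omega)
    exact ⟨by omega, by omega, h, h0, h1⟩
  · rintro q ⟨hq1, hq2, h, h0, hN⟩
    by_contra hlt
    obtain ⟨a, ha, haq, hak⟩ := hN (k * (q * h) + 3 * (q * h) ^ 2)
    have h1 := hak ⟨k - 1, by omega⟩ (by show k - 1 + 1 = k; omega)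
    have h2 := hu k q h a hq1 (by omega) (by omega) ha (fun i hi => by
      have h3 : a i ≤ a ⟨q - 1, by omega⟩ := ha.1.monotone (by
        show i.val ≤ q - 1
        omega)
      rw [haq ⟨q - 1, by omega⟩ (by show q - 1 + 1 = q; omega)] at h3
      exact h3) ⟨k - 1, by omega⟩ (by show q ≤ k - 1; omega)
    omega

end Q131.FB
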